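import Mathlib
import Pool.Agent.Run7.h436.KArbWrap

set_option autoImplicit false

namespace Pool.Agent.Results.MP_e457e7_co.BlocksThreeOrCycle

/-- Q1 for all `k`, `l` and all digraphs in which, after deleting the root and the arcs of capacity
zero, every strong component either has no underlying cycle of length at least four, or is a
directed cycle (every vertex has at most one in-neighbour in the component). -/
theorem result : ∀ (V : Type) [Fintype V] (r0 : V) (P : V → V → Prop) (k l : ℕ),
    (∀ K : V → Prop, Run7.h436.KArbTwo.IsComp r0 P K →
      Run7.h436.KArbTwo.NoLongCycle P K ∨ Run7.h436.KArbTwo.OneInNeighbour P K) →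
    Run7.h436.KArbTwo.HoldsFor V r0 P k l := by
  intro V _ r0 P k l h
  exact Run7.h436.KArbTwo.main3 V r0 P k l h

end Pool.Agent.Results.MP_e457e7_co.BlocksThreeOrCycle
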