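import Mathlib
import Pool.Agent.Run7.h436.KArbComp

set_option autoImplicit false

namespace Pool.Agent.Results.MP_e457e7_co.OneComponentTwoClasses

/-- Q1 reduces to `l = 2` and to one strong component: for each `k`, each finite vertex set `V` with
root `r0` and each set `P` of allowed ordered pairs, if Q1 with `l = 2` holds for the digraphs whose
arcs leave the root or are allowed pairs inside one strong component `K` of `P` minus the root (for
each such `K`) and whose capacities entering each vertex other than the root sum to exactly `2 * k`,
then Q1 holds for every `l` and all digraphs with allowed pairs. -/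
theorem result : ∀ (V : Type) [Fintype V] (r0 : V) (P : V → V → Prop) (k : ℕ),
    (∀ K : V → Prop, Run7.h436.KArbTwo.IsComp r0 P K →
      Run7.h436.KArbTwo.HoldsTight V r0 (fun x y => x = r0 ∨ (K x ∧ K y ∧ P x y)) k 2) →
    ∀ l : ℕ, Run7.h436.KArbTwo.HoldsFor V r0 P k l := by
  intro V _ r0 P k h l
  exact Run7.h436.KArbTwo.main2 V r0 P k h l

end Pool.Agent.Results.MP_e457e7_co.OneComponentTwoClasses
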